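import Mathlib
import Pool.Agent.Lib.helper1.LC

set_option autoImplicit false
open Finset

namespace Pool.Agent.H.MP_9638d9_co.C
open Pool.Agent.Lib.helper1.Mask Pool.Agent.Lib.helper1.LC

variable {n : ℕ}

/-- tetrahedra of `K`. -/
def Tet (K : Finset (Finset (Fin n))) (X : Finset (Fin n)) : Prop := X ∈ K ∧ X.card = 4

/-- two tetrahedra sharing a triangle that contains `σ`. -/
def Adj (K : Finset (Finset (Fin n))) (σ X Y : Finset (Fin n)) : Prop :=
  Tet K X ∧ Tet K Y ∧ (X ∩ Y).card = 3 ∧ σ ⊆ X ∩ Y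

/-- `e` lies in no boundary triangle. -/
def Inner (K : Finset (Finset (Fin n))) (e : Finset (Fin n)) : Prop :=
  ∀ R ∈ K, R.card = 3 → e ⊆ R → ∃ X Y, Adj K R X Y

/-- combinatorial 3-manifold with boundary. -/
structure Mfd (K : Finset (Finset (Fin n))) : Prop where
  down : ∀ σ ∈ K, ∀ τ ⊆ σ, τ ∈ K
  pure : ∀ σ ∈ K, ∃ X, Tet K X ∧ σ ⊆ X
  thin : ∀ X Y Z, Adj K ∅ X Y → Tet K Z → X ∩ Y ⊆ Z → X = Z ∨ Y = Z
  conn : ∀ σ X Y, σ.Nonempty → Tet K X → Tet K Y → σ ⊆ X → σ ⊆ Y →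
    Relation.ReflTransGen (Adj K σ) X Y
  hom : ∀ (v : Fin n) (z : Finset (Fin n) → ZMod 2),
    (∀ w ≠ v, Inner K {v, w} → ∑ R ∈ K with R.card = 3 ∧ {v, w} ⊆ R, z R = 0) →
    ∃ c : Finset (Fin n) → ZMod 2, ∀ X Y, Adj K {v} X Y → z (X ∩ Y) = c X + c Y

variable {K : Finset (Finset (Fin n))} {G : Finset (Finset (Fin n) × Finset (Fin n))}

theorem Adj.symm {σ X Y : Finset (Fin n)} (h : Adj K σ X Y) : Adj K σ Y X := by
  rw [Adj, inter_comm]
  exact ⟨h.2.1, h.1, h.2.2⟩

theorem Adj.mono {σ τ X Y : Finset (Fin n)} (h : Adj K σ X Y) (s : τ ⊆ X ∩ Y) : Adj K τ X Y :=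
  ⟨h.1, h.2.1, h.2.2.1, s⟩

theorem Adj.ne {σ X Y : Finset (Fin n)} (h : Adj K σ X Y) : X ≠ Y := by
  rintro rfl
  have := h.2.2.1
  rw [inter_self, h.1.2] at this
  omega

theorem rmono {α : Type} {r p : α → α → Prop} {a b : α} (h : Relation.ReflTransGen r a b)
    (k : ∀ x y, r x y → p x y) : Relation.ReflTransGen p a b := by
  induction h with
  | refl => exact .refl
  | tail _ x y => exact y.tail (k _ _ x)

theorem conn_mono {G' : Finset (Finset (Fin n) × Finset (Fin n))} {e e' X Y : Finset (Fin n)}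
    (g : G ⊆ G') (s : e' ⊆ e) (h : Conn G e X Y) : Conn G' e' X Y :=
  rmono h fun _ _ x => ⟨x.1.imp (@g _) (@g _), s.trans x.2.1, s.trans x.2.2⟩

theorem free (h : Mfd K) (g : ∀ p ∈ G, Adj K ∅ p.1 p.2) {σ X Y : Finset (Fin n)} (a : Adj K σ X Y)
    (x : ¬ ((X, Y) ∈ G ∨ (Y, X) ∈ G)) : Free G X (X ∩ Y) := by
  rintro ⟨p, q⟩ hp y e
  have := h.thin p q Y (g _ hp) a.2.1 (e.le.trans inter_subset_right)
  have := a.ne
  aesop

theorem around (h : Mfd K) {e X Y : Finset (Fin n)} (a : Adj K e X Y) (he : e.card = 2)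
    (i : Inner K e) (g : ∀ U V, Adj K e U V → U ∩ V ≠ X ∩ Y → (U, V) ∈ G ∨ (V, U) ∈ G) :
    Conn G e X Y := by
  classical
  by_contra x
  set c : Finset (Fin n) → ZMod 2 := fun T => if Conn G e X T then 1 else 0 with hc
  have two : ∀ U V, Adj K e U V → ∑ T ∈ K with T.card = 4 ∧ U ∩ V ⊆ T, c T = c U + c V := by
    intro U V b
    rw [← sum_pair b.ne]
    congr 1
    ext T
    simp only [mem_filter, mem_insert, mem_singleton]
    refine ⟨fun y => ?_, ?_⟩
    · exact (h.thin U V T (b.mono (empty_subset _)) ⟨y.1, y.2.1⟩ y.2.2).imp Eq.symm Eq.symm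
    · rintro (rfl | rfl)
      exacts [⟨b.1.1, b.1.2, inter_subset_left⟩, ⟨b.2.1.1, b.2.1.2, inter_subset_right⟩]
  have s1 : ∑ R ∈ K with R.card = 3 ∧ e ⊆ R, ∑ T ∈ K with T.card = 4 ∧ R ⊆ T, c T = 1 := by
    rw [sum_eq_single_of_mem (X ∩ Y) (mem_filter.2 ⟨h.down _ a.1.1 _ inter_subset_left, a.2.2⟩),
      two X Y a]
    · simp [hc, x, show Conn G e X X from .refl]
    · intro R hR ne
      rw [mem_filter] at hR
      obtain ⟨U, V, b⟩ := i R hR.1 hR.2.1 hR.2.2
      obtain rfl := eq_of_subset_of_card_le b.2.2.2 (by rw [b.2.2.1, hR.2.1])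
      have b := b.mono hR.2.2
      have y := g U V b ne
      have s := subset_inter_iff.1 hR.2.2
      have : Conn G e X U ↔ Conn G e X V := ⟨fun t => t.tail ⟨y, s⟩, fun t => t.tail ⟨y.symm, s.symm⟩⟩
      rw [two U V b]
      simp only [hc, this]
      exact CharTwo.add_self_eq_zero _
  rw [sum_comm' (t' := K.filter fun T => T.card = 4)
    (s' := fun T => K.filter fun R => (R.card = 3 ∧ e ⊆ R) ∧ R ⊆ T) (by simp; tauto),
    sum_eq_zero] at s1
  · exact zero_ne_one s1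
  intro T hT
  rw [mem_filter] at hT
  by_cases s : e ⊆ T
  · have : K.filter (fun R => (R.card = 3 ∧ e ⊆ R) ∧ R ⊆ T) = (T \ e).image (insert · e) := by
      ext R
      simp only [mem_filter, mem_image, mem_sdiff]
      constructor
      · rintro ⟨-, ⟨p, q⟩, r⟩
        obtain ⟨u, y, rfl⟩ := exists_eq_insert_iff.2 ⟨q, by omega⟩
        exact ⟨u, ⟨r (mem_insert_self _ _), y⟩, rfl⟩
      · rintro ⟨u, ⟨p, q⟩, rfl⟩
        exact ⟨h.down _ hT.1 _ (insert_subset p s), ⟨by rw [card_insert_of_notMem q, he],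
          subset_insert _ _⟩, insert_subset p s⟩
    rw [this, sum_const, card_image_of_injOn fun u hu w _ y => (insert_inj (mem_sdiff.1 hu).2).1 y,
      card_sdiff_of_subset s, hT.2, he]
    exact (two_nsmul _).trans (CharTwo.add_self_eq_zero _)
  · exact sum_eq_zero fun R hR => absurd ((mem_filter.1 hR).2.1.2.trans (mem_filter.1 hR).2.2) s

theorem even {v : Fin n} {E : Finset (Finset (Fin n))} {I : Finset (Fin n)} (ne : E.Nonempty)
    (hE : ∀ R ∈ E, v ∈ R ∧ R.card = 3) (hv : v ∉ I) (h : ∀ w ∈ I, (E.filter (w ∈ ·)).card ≠ 1) :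
    ∃ z : Finset (Fin n) → ZMod 2, (∀ R ∉ E, z R = 0) ∧ (∃ R, z R ≠ 0) ∧
      ∀ w ∈ I, ∑ R ∈ E with w ∈ R, z R = 0 := by
  set W := I.filter fun w => 2 ≤ (E.filter (w ∈ ·)).card with hW
  have k : ∀ z : Finset (Fin n) → ZMod 2, (∀ w ∈ W, ∑ R ∈ E with w ∈ R, z R = 0) →
      ∀ w ∈ I, ∑ R ∈ E with w ∈ R, z R = 0 := by
    intro z a w b
    by_cases c : w ∈ W
    · exact a w c
    · have := h w b
      simp only [hW, mem_filter, b, true_and] at c
      rw [card_eq_zero.1 (show (E.filter (w ∈ ·)).card = 0 by omega), sum_empty]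
  by_cases c : W.card < E.card
  · obtain ⟨x, a, b⟩ := (Submodule.ne_bot_iff _).1 (LinearMap.ker_ne_bot_of_finrank_lt
      (f := Matrix.mulVecLin (R := ZMod 2) (Matrix.of fun (w : W) (R : E) =>
        if w.1 ∈ R.1 then 1 else 0)) (by simpa using c))
    obtain ⟨R, b⟩ := Function.ne_iff.1 b
    refine ⟨fun R => if a : R ∈ E then x ⟨R, a⟩ else 0, fun R a => dif_neg a, ⟨R, by simpa using b⟩,
      k _ fun w hw => ?_⟩
    have := congrFun (LinearMap.mem_ker.1 a) ⟨w, hw⟩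
    rw [sum_filter, ← sum_coe_sort]
    simpa [Matrix.mulVec, dotProduct] using this
  · obtain ⟨R, hR⟩ := ne
    refine ⟨fun R => if R ∈ E then 1 else 0, fun R a => if_neg a, ⟨R, by simp [hR]⟩,
      k _ fun w hw => ?_⟩
    have e : (E.filter (w ∈ ·)).card = 2 := by
      by_contra x
      have l := sum_lt_sum (s := W) (f := fun _ => 2) (g := fun w => (E.filter (w ∈ ·)).card)
        (fun w a => (mem_filter.1 a).2) ⟨w, hw, by have := (mem_filter.1 hw).2; omega⟩
      have := sum_card_bipartiteAbove_eq_sum_card_bipartiteBelow (s := W) (t := E) (· ∈ ·)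
      simp only [bipartiteAbove, bipartiteBelow] at this
      rw [this] at l
      have := sum_le_card_nsmul E (fun R => (W.filter (· ∈ R)).card) 2 fun R a => by
        have := card_le_card (show W.filter (· ∈ R) ⊆ R.erase v from fun w b => mem_erase.2
          ⟨fun y => hv (y ▸ (mem_filter.1 (mem_filter.1 b).1).1), (mem_filter.1 b).2⟩)
        rw [card_erase_of_mem (hE R a).1, (hE R a).2] at this
        exact this
      simp only [sum_const, smul_eq_mul] at l this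
      omega
    rw [sum_congr rfl fun R a => if_pos (mem_filter.1 a).1, sum_const, e]
    rfl

structure St (K : Finset (Finset (Fin n))) (W U : Finset (Fin n)) (P : Finset (Finset (Fin n)))
    (G : Finset (Finset (Fin n) × Finset (Fin n))) : Prop where
  b : Build 3 K P G
  p1 : ∀ X, Tet K X → ∀ w ∈ W, w ∈ X → X ∈ P
  p2 : ∀ X ∈ P, Tet K X ∧ ∃ w ∈ U, w ∈ X
  g1 : ∀ X Y, ∀ w ∈ W, Adj K {w} X Y → (X, Y) ∈ G ∨ (Y, X) ∈ G
  g2 : ∀ p ∈ G, p.1 ∈ P ∧ p.2 ∈ P ∧ Adj K ∅ p.1 p.2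

theorem stage (h : Mfd K) {W : Finset (Fin n)} {v : Fin n} {X₀ : Finset (Fin n)} (h0 : v ∈ X₀)
    (s : ∃ P G, St K W (insert v W) P G ∧ X₀ ∈ P ∧ ∀ X ∈ P, v ∈ X → Conn G {v} X₀ X) :
    ∃ P G, St K (insert v W) (insert v W) P G := by
  classical
  obtain ⟨G, hG, mx⟩ := exists_max_image (univ.filter fun G => ∃ P, St K W (insert v W) P G ∧
    X₀ ∈ P ∧ ∀ X ∈ P, v ∈ X → Conn G {v} X₀ X) card (by
      obtain ⟨P, G, s⟩ := s
      exact ⟨G, mem_filter.2 ⟨mem_univ _, P, s⟩⟩)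
  obtain ⟨P, s, a0, c0⟩ := (mem_filter.1 hG).2
  have g3 := fun p a => (s.g2 p a).2.2
  have ext : ∀ X Y, X ∈ P → Adj K {v} X Y → ¬ ((X, Y) ∈ G ∨ (Y, X) ∈ G) →
      ¬ Build 3 K (insert Y P) (insert (X, Y) G) := by
    intro X Y a b x B
    have y := subset_inter_iff.1 b.2.2.2
    have := mx (insert (X, Y) G) (mem_filter.2 ⟨mem_univ _, insert Y P, ⟨B,
      fun X a w b c => mem_insert_of_mem (s.p1 X a w b c),
      forall_mem_insert _ _ _ |>.2 ⟨⟨b.2.1, v, mem_insert_self _ _, by simpa using y.2⟩, s.p2⟩,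
      fun X Y w a b => (s.g1 X Y w a b).imp mem_insert_of_mem mem_insert_of_mem,
      forall_mem_insert _ _ _ |>.2 ⟨⟨mem_insert_of_mem a, mem_insert_self _ _,
        b.mono (empty_subset _)⟩, fun p a => ⟨mem_insert_of_mem (s.g2 p a).1,
        mem_insert_of_mem (s.g2 p a).2.1, g3 p a⟩⟩⟩, mem_insert_of_mem a0,
      forall_mem_insert _ _ _ |>.2 ⟨fun _ => (conn_mono (subset_insert _ _) subset_rfl
        (c0 X a (by simpa using y.1))).tail ⟨.inl (mem_insert_self _ _), y⟩,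
        fun X a b => conn_mono (subset_insert _ _) subset_rfl (c0 X a b)⟩⟩)
    rw [card_insert_of_notMem fun t => x (.inl t)] at this
    omega
  have all : ∀ X, Tet K X → v ∈ X → X ∈ P := by
    intro X a b
    have := h.conn {v} X₀ X (by simp) (s.p2 _ a0).1 a (by simpa using h0) (by simpa using b)
    clear a b
    induction this with
    | refl => exact a0
    | @tail U V _ b ih =>
      by_contra x
      have y : ¬ ((U, V) ∈ G ∨ (V, U) ∈ G) := fun t => x (t.elim (fun t => (s.g2 _ t).2.1)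
        fun t => (s.g2 _ t).1)
      exact ext U V ih b y (.attach _ _ _ _ s.b ih b.2.1.1 x b.2.1.2 b.2.2.1 (free h g3 b y))
  have mv : ∀ {X Y}, Adj K {v} X Y → v ∈ X ∧ v ∈ Y := fun b => by simpa using b.2.2.2
  have gl : ∀ X Y, Adj K {v} X Y → (X, Y) ∈ G ∨ (Y, X) ∈ G := by
    intro X Y b
    by_contra x
    set E := univ.filter fun R => ∃ X Y, Adj K {v} X Y ∧ ¬ ((X, Y) ∈ G ∨ (Y, X) ∈ G) ∧ X ∩ Y = R
      with hE
    obtain ⟨z, z1, ⟨R, z2⟩, z3⟩ := even (v := v) (E := E)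
      (I := univ.filter fun w => w ≠ v ∧ Inner K {v, w}) ⟨_, mem_filter.2 ⟨mem_univ _, X, Y, b, x, rfl⟩⟩
      (fun R a => by
        obtain ⟨X, Y, b, -, rfl⟩ := (mem_filter.1 a).2
        exact ⟨mem_inter.2 (mv b), b.2.2.1⟩) (by simp) (fun w a e => by
        obtain ⟨R, e⟩ := card_eq_one.1 e
        have m := mem_filter.1 (e.ge (mem_singleton_self R))
        obtain ⟨X, Y, b, x, rfl⟩ := (mem_filter.1 m.1).2
        have a := (mem_filter.1 a).2
        have t : {v, w} ⊆ X ∩ Y := insert_subset (mem_inter.2 (mv b)) (by simpa using m.2)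
        have pX := all X b.1 (mv b).1
        have pY := all Y b.2.1 (mv b).2
        refine ext X Y pX b x ?_
        rw [insert_eq_of_mem pY]
        refine .glue _ _ _ _ {v, w} s.b pX pY b.2.2.1 (free h g3 b x)
          (inter_comm X Y ▸ free h g3 b.symm fun t => x t.symm) t (by rw [card_pair a.1.symm])
          (around h (b.mono t) (card_pair a.1.symm) a.2 fun U V c ne => ?_)
        by_contra y
        have c' := insert_subset_iff.1 c.2.2.2
        exact ne (mem_singleton.1 (e.le (mem_filter.2 ⟨mem_filter.2 ⟨mem_univ _, U, V,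
          c.mono (by simpa using c'.1), y, rfl⟩, by simpa using c'.2⟩))))
    obtain ⟨c, hc⟩ := h.hom v z fun w a b => by
      rw [← z3 w (mem_filter.2 ⟨mem_univ _, a, b⟩)]
      symm
      refine sum_subset (fun R a => ?_) fun R a c => z1 R fun t => c (mem_filter.2 ⟨t,
        (mem_filter.1 a).2.2 (by simp)⟩)
      obtain ⟨X, Y, b, -, rfl⟩ := (mem_filter.1 (mem_filter.1 a).1).2
      exact mem_filter.2 ⟨h.down _ b.1.1 _ inter_subset_left, b.2.2.1,
        insert_subset (mem_inter.2 (mv b)) (by simpa using (mem_filter.1 a).2)⟩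
    have same : ∀ X, Conn G {v} X₀ X → c X₀ = c X := by
      intro X a
      induction a with
      | refl => rfl
      | @tail U V _ b ih =>
        have a : Adj K {v} U V := (b.1.elim (g3 _) fun t => (g3 _ t).symm).mono (subset_inter b.2.1 b.2.2)
        have : U ∩ V ∉ E := fun t => by
          obtain ⟨X, Y, p, q, r⟩ := (mem_filter.1 t).2
          have e1 := h.thin X Y U (p.mono (empty_subset _)) a.1 (r.le.trans inter_subset_left)
          have e2 := h.thin X Y V (p.mono (empty_subset _)) a.2.1 (r.le.trans inter_subset_right)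
          have := a.ne
          have := b.1
          aesop
        rw [ih, ← CharTwo.add_eq_zero, ← hc U V a, z1 _ this]
    obtain ⟨X, Y, b, -, rfl⟩ := (mem_filter.1 (by_contra fun t => z2 (z1 R t) : R ∈ E)).2
    apply z2
    rw [hc X Y b, ← same X (c0 X (all X b.1 (mv b).1) (mv b).1),
      ← same Y (c0 Y (all Y b.2.1 (mv b).2) (mv b).2), CharTwo.add_self_eq_zero]
  exact ⟨P, G, s.b, fun X a => forall_mem_insert _ _ _ |>.2 ⟨all X a, s.p1 X a⟩, s.p2,
    fun X Y => forall_mem_insert _ _ _ |>.2 ⟨gl X Y, s.g1 X Y⟩, s.g2⟩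

theorem ne_conn {L : Finset (Finset (Fin n))} (h : NE L) : (∀ σ ∈ L, ∀ τ ⊆ σ, τ ∈ L) →
    ∃ a, {a} ∈ L ∧ ∀ b, {b} ∈ L → Relation.ReflTransGen (fun x y => {x, y} ∈ L) a b := by
  induction h with
  | pt v =>
    intro _
    refine ⟨v, by simp, fun b x => ?_⟩
    obtain rfl : b = v := by simpa using x
    exact .refl
  | step L v _ _ _ i1 i2 =>
    intro h
    obtain ⟨a, a1, a2⟩ := i1 fun σ hσ τ s => by
      rw [mem_filter] at hσ ⊢
      exact ⟨h _ hσ.1 _ s, fun x => hσ.2 (s x)⟩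
    obtain ⟨u, u1, -⟩ := i2 fun σ hσ τ s => by
      rw [mem_filter] at hσ ⊢
      exact ⟨h _ hσ.1 _ s, fun x => hσ.2.1 (s x), h _ hσ.2.2 _ (insert_subset_insert _ s)⟩
    have k : ∀ b, {b} ∈ L → v ∉ ({b} : Finset (Fin n)) →
        Relation.ReflTransGen (fun x y => {x, y} ∈ L) a b :=
      fun b x y => rmono (a2 b (mem_filter.2 ⟨x, y⟩)) fun _ _ t => (mem_filter.1 t).1
    rw [mem_filter] at a1 u1
    refine ⟨a, a1.1, fun b x => ?_⟩
    by_cases e : v = b
    · exact (k u u1.1 u1.2.1).tail (by rw [pair_comm, ← e]; exact u1.2.2)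
    · exact k b x (by simpa using e)

theorem main (h : Mfd K) {L : Finset (Finset (Fin n))} (e : NE L) :
    ∀ W, (∀ w ∈ W, {w} ∈ K) → L = K.filter (· ⊆ W) → ∃ P G, St K W W P G := by
  induction e with
  | pt v =>
    intro W a e
    have m := mem_filter.1 (e.le (mem_insert_of_mem (mem_singleton_self _)))
    obtain rfl : W = insert v ∅ := by
      refine Subset.antisymm (fun w x => ?_) m.2
      simpa using e.ge (mem_filter.2 ⟨a w x, by simpa using x⟩)
    obtain ⟨X, p, q⟩ := h.pure _ m.1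
    have q : v ∈ X := by simpa using q
    exact stage h q ⟨{X}, ∅, ⟨.start X p.1 p.2, by simp, by simp [p, q], by simp, by simp⟩, by simp,
      by simpa using fun _ => .refl⟩
  | step L v m _ l ih _ =>
    rintro W a rfl
    have hv : v ∈ W := by simpa using (mem_filter.1 m).2
    obtain ⟨P, G, s⟩ := ih (W.erase v) (fun w x => a w (mem_of_mem_erase x)) (by
      rw [filter_filter]
      exact filter_congr fun σ _ => subset_erase.symm)
    obtain ⟨u, u1, u2⟩ := ne_conn l fun σ hσ τ s => by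
      simp only [mem_filter] at hσ ⊢
      exact ⟨⟨h.down _ hσ.1.1 _ s, s.trans hσ.1.2⟩, fun x => hσ.2.1 (s x), h.down _ hσ.2.2.1 _
        (insert_subset_insert _ s), (insert_subset_insert _ s).trans hσ.2.2.2⟩
    simp only [mem_filter, mem_singleton, singleton_subset_iff] at u1 u2
    obtain ⟨X₀, p, q⟩ := h.pure _ u1.2.2.1
    have rot : ∀ w ∈ W.erase v, ∀ X Y, Tet K X → Tet K Y → {v, w} ⊆ X → {v, w} ⊆ Y →
        Conn G {v} X Y := fun w a X Y b c d e =>
      rmono (h.conn {v, w} X Y (by simp) b c d e) fun U V t => ⟨s.g1 U V w a (t.mono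
        (Subset.trans (by simp) t.2.2.2)), subset_inter_iff.1 (Subset.trans (by simp) t.2.2.2)⟩
    have uW : u ∈ W.erase v := mem_erase.2 ⟨Ne.symm u1.2.1, u1.1.2⟩
    rw [← insert_erase hv]
    refine stage h (q (mem_insert_self _ _)) ⟨P, G, ⟨s.b, s.p1, fun X a => ⟨(s.p2 X a).1,
      (s.p2 X a).2.imp fun _ t => ⟨mem_insert_of_mem t.1, t.2⟩⟩, s.g1, s.g2⟩,
      s.p1 _ p u uW (q (by simp)), fun X a b => ?_⟩
    obtain ⟨c, w, d, e⟩ := s.p2 X a
    have f : {v, w} ⊆ X := by simp [insert_subset_iff, b, e]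
    have g := mem_erase.1 d
    have := u2 w ⟨⟨h.down _ c.1 _ (by simpa using e), g.2⟩, g.1.symm, h.down _ c.1 _ f,
      by simp [insert_subset_iff, hv, g.2]⟩
    clear a b e g
    induction this generalizing X with
    | refl => exact rot _ d _ _ p c q f
    | @tail x y _ t ih =>
      obtain ⟨T, t1, t2⟩ := h.pure _ t.2.2.1
      refine (ih T t1 (mem_erase.2 ⟨fun e => t.2.1 (by simp [e]), t.1.2 (by simp)⟩)
        (Subset.trans (by simp [insert_subset_iff]) t2)).trans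
        (rot _ d _ _ t1 c (Subset.trans (by simp [insert_subset_iff]) t2) f)

theorem lc (h : Mfd K) (e : NE K) : IsLC 3 K := by
  obtain ⟨P, G, s⟩ := main h e (univ.filter fun w : Fin n => {w} ∈ K) (by simp) (by
    refine (filter_true_of_mem fun σ a w b => ?_).symm
    exact mem_filter.2 ⟨mem_univ _, h.down _ a _ (by simpa using b)⟩)
  have m : ∀ X, Tet K X → ∀ w ∈ X, w ∈ univ.filter fun w : Fin n => {w} ∈ K := fun X a w b =>
    mem_filter.2 ⟨mem_univ _, h.down _ a.1 _ (by simpa using b)⟩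
  refine ⟨P, G, s.b, fun σ a => ?_, fun X a Y b ⟨w, c⟩ => ?_⟩
  · obtain ⟨X, p, q⟩ := h.pure σ a
    obtain ⟨w, c⟩ := card_pos.1 (show 0 < X.card by rw [p.2]; omega)
    exact ⟨X, s.p1 X p w (m X p w c) c, q⟩
  · exact rmono (h.conn _ X Y ⟨w, c⟩ (s.p2 X a).1 (s.p2 Y b).1 inter_subset_left inter_subset_right)
      fun U V t => ⟨s.g1 U V w (m X (s.p2 X a).1 w (mem_inter.1 c).1)
        (t.mono (singleton_subset_iff.2 (t.2.2.2 c))), subset_inter_iff.1 t.2.2.2⟩

end Pool.Agent.H.MP_9638d9_co.C
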